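import Mathlib
import Pool.Agent.H300R2.HP.Main

/-!
Rational points on almost all systems `F_i(t) + a_i t + b_i = g_i (u_i² + v_i²)` (`i ≤ r`) and on the
conic bundle surfaces `u² + v² = ∏_i (F_i(t) + a_i t + b_i)`.
-/

set_option autoImplicit false

namespace Pool.Agent.Results.MP_12adaf_nt.ConicPencils

open Finset Polynomial

/-- the value `F_i(n) + a_i n + b_i` -/
def val {r : ℕ} (F : Fin r → ℤ[X]) (a b : Fin r → ℤ) (i : Fin r) (n : ℤ) : ℤ :=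
  (F i).eval n + a i * n + b i

lemma prod_sq {r : ℕ} (x : Fin r → ℤ) (h : ∀ i, ∃ u v : ℤ, x i = u ^ 2 + v ^ 2) :
    ∃ u v : ℤ, ∏ i, x i = u ^ 2 + v ^ 2 := by
  classical
  have key : ∀ s : Finset (Fin r), ∃ u v : ℤ, ∏ i ∈ s, x i = u ^ 2 + v ^ 2 := by
    intro s
    induction s using Finset.induction_on with
    | empty => exact ⟨1, 0, by simp⟩
    | insert i s hi ih =>
      obtain ⟨u, v, h1⟩ := ih
      obtain ⟨u', v', h2⟩ := h i
      refine ⟨u' * u - v' * v, u' * v + v' * u, ?_⟩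
      rw [prod_insert hi, h1, h2]
      ring
  exact key univ

open Classical in
/-- **Hasse principle for almost all members of pencils of conic bundles.** Let `r, D, U, E` be given and `B, N`
large in terms of these, `L = log N`, `L^B ≤ K ≤ N / L^B`, and let `F_i ∈ ℤ[t]` (`i ≤ r`) be ANY polynomials of
degree `≤ D` with `0 ≤ F_i(n) ≤ N` for `1 ≤ n ≤ K`. Then all integer vectors `(a_i, b_i)` with
`1 ≤ a_i ≤ N / K`, `1 ≤ b_i ≤ N`, with at most `(N² / K)^r / L^U` exceptions, have the following property.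
Put `f_i(t) = F_i(t) + a_i t + b_i`. Whenever `q ≤ L^E`, `n₀` and `g_i ≥ 1` with `4 g_i² ∣ q` are such that
`f_i(n₀) / g_i` is an integer prime to `q` and `≡ 1 mod 4` (so that `f_i(t) = g_i (u_i² + v_i²)` is soluble
near `t = n₀` at the primes dividing `q`), and no prime `l ∤ q` divides `f_1(n) ⋯ f_r(n)` for all `n`, at least
`K / (q L^(r + 2))` of the integers `t = n ≤ K`, `n ≡ n₀ mod q`, are such that all the equations
`f_i(t) = g_i (u_i² + v_i²)` are soluble; if `g_1 ⋯ g_r` is a sum of two squares then at least as many are such that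
`f_1(t) ⋯ f_r(t) = u² + v²` is soluble. -/
theorem result (r D U E : ℕ) : ∃ B N0 : ℕ, ∀ N : ℕ, N0 ≤ N → ∀ K : ℕ, Real.log N ^ B ≤ K →
    (K : ℝ) * Real.log N ^ B ≤ N → ∀ F : Fin r → ℤ[X], (∀ i, (F i).natDegree ≤ D) →
    (∀ i, ∀ n : ℕ, 1 ≤ n → n ≤ K → 0 ≤ (F i).eval (n : ℤ) ∧ (F i).eval (n : ℤ) ≤ N) →
    ∃ Ex : Finset (Fin r → ℤ × ℤ), (Ex.card : ℝ) ≤ ((N : ℝ) ^ 2 / K) ^ r / Real.log N ^ U ∧
      ∀ a b : Fin r → ℤ, (∀ i, 1 ≤ a i ∧ a i * K ≤ N) → (∀ i, 1 ≤ b i ∧ b i ≤ N) →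
      (fun i => (a i, b i)) ∉ Ex →
      ∀ (q n0 : ℕ) (g : Fin r → ℕ), 1 ≤ n0 → n0 ≤ q → (q : ℝ) ≤ Real.log N ^ E →
      (∀ i, 4 * g i ^ 2 ∣ q) →
      (∀ i, ∃ c : ℤ, val F a b i n0 = g i * c ∧ c % 4 = 1 ∧ IsCoprime c q) →
      (∀ l : ℕ, l.Prime → ¬ l ∣ q → ∃ n : ℤ, ∀ i, ¬ (l : ℤ) ∣ val F a b i n) →
      (K : ℝ) / (q * Real.log N ^ (r + 2)) ≤
        (((Icc 1 K).filter (fun n : ℕ => n ≡ n0 [MOD q] ∧
          ∀ i, ∃ u v : ℤ, val F a b i n = g i * (u ^ 2 + v ^ 2))).card : ℝ) ∧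
      ((∃ s t : ℤ, ∏ i, (g i : ℤ) = s ^ 2 + t ^ 2) →
        (K : ℝ) / (q * Real.log N ^ (r + 2)) ≤
        (((Icc 1 K).filter (fun n : ℕ => n ≡ n0 [MOD q] ∧
          ∃ u v : ℤ, ∏ i, val F a b i n = u ^ 2 + v ^ 2)).card : ℝ)) := by
  obtain ⟨B, N0, h⟩ := Pool.Agent.H300R2.HP.hp r D U E
  refine ⟨B, N0, fun N hN K hK hKN F hF hFr => ?_⟩
  obtain ⟨Ex, hEx, h1⟩ := h N hN K hK hKN F hF hFr
  refine ⟨Ex, hEx, fun a b ha hb hab q n0 g hn0 hn0q hqE hgq hcc hloc => ?_⟩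
  have h2 := h1 a b ha hb hab q n0 g hn0 hn0q hqE hgq hcc hloc
  have key : ∀ n : ℕ, Pool.Agent.H300R2.HP.Good F a b q n0 g n →
      n ≡ n0 [MOD q] ∧ ∀ i, ∃ u v : ℤ, val F a b i n = g i * (u ^ 2 + v ^ 2) := by
    intro n hn
    refine ⟨hn.1, fun i => ?_⟩
    obtain ⟨l, hl, hl4, hl2⟩ := hn.2 i
    haveI : Fact l.Prime := ⟨hl⟩
    obtain ⟨u, v, huv⟩ := Nat.Prime.sq_add_sq (p := l) (by omega)
    refine ⟨u, v, ?_⟩
    have h3 : val F a b i n = g i * l := hl2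
    rw [h3, ← huv]
    push_cast
    ring
  refine ⟨h2.trans ?_, fun ⟨s, t, hst⟩ => h2.trans ?_⟩
  · have h3 : ((Icc 1 K).filter (fun n => Pool.Agent.H300R2.HP.Good F a b q n0 g n)).card ≤
        ((Icc 1 K).filter (fun n : ℕ => n ≡ n0 [MOD q] ∧
          ∀ i, ∃ u v : ℤ, val F a b i n = g i * (u ^ 2 + v ^ 2))).card :=
      card_le_card (monotone_filter_right _ fun n _ hn => key n hn)
    exact_mod_cast h3
  · have h3 : ((Icc 1 K).filter (fun n => Pool.Agent.H300R2.HP.Good F a b q n0 g n)).card ≤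
        ((Icc 1 K).filter (fun n : ℕ => n ≡ n0 [MOD q] ∧
          ∃ u v : ℤ, ∏ i, val F a b i n = u ^ 2 + v ^ 2)).card := by
      refine card_le_card (monotone_filter_right _ fun n _ hn => ?_)
      obtain ⟨h4, h5⟩ := key n hn
      refine ⟨h4, ?_⟩
      choose u v huv using h5
      obtain ⟨u', v', h6⟩ := prod_sq (fun i => u i ^ 2 + v i ^ 2) (fun i => ⟨u i, v i, rfl⟩)
      refine ⟨s * u' - t * v', s * v' + t * u', ?_⟩
      rw [prod_congr rfl (fun i _ => huv i), prod_mul_distrib, hst, h6]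
      ring
    exact_mod_cast h3

end Pool.Agent.Results.MP_12adaf_nt.ConicPencils
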