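import Mathlib
import Pool.Agent.H300R2.HP.FullR

/-!
The Hasse principle for almost all systems `F_i(t) + a_i t + b_i = u_i² + v_i²` (`i ≤ r`).
-/

set_option autoImplicit false

namespace Pool.Agent.Results.MP_12adaf_nt.HasseSystems

open Finset Polynomial

open Classical in
/-- **Integral Hasse principle for 100% of the systems `u_i² + v_i² = F_i(t) + a_i t + b_i`, `i ≤ r`.** Let `r, D, U`
be given, `B, E` and `N` large in terms of these, `L = log N`, `L^B ≤ K ≤ N / L^B`, and let `F_i ∈ ℤ[t]` be ANY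
polynomials of degree `≤ D` such that no prime `l > r max(D, 1)` divides all the coefficients of index `≥ 2` of one of
them (for instance monic of degree `≥ 2`) and `0 ≤ F_i(n) ≤ N` for `1 ≤ n ≤ K`. For all integers `1 ≤ a_i ≤ N / K`,
`1 ≤ b_i ≤ N` with at most `(N² / K)^r / L^U` exceptions the following holds: if the system
`u_i² + v_i² = F_i(t) + a_i t + b_i` (`i ≤ r`) is soluble modulo all powers of the primes `p ≤ r max(D, 1) + 2`, then it
is soluble in integers; more precisely at least `K / L^E` of the integers `n ≤ K` are such that all the numbers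
`F_i(n) + a_i n + b_i` are sums of two squares. The case `r = 1` is the Hasse principle for the conic bundle
surfaces `u² + v² = F(t) + a t + b`. -/
theorem result (r D U : ℕ) : ∃ B E N0 : ℕ, ∀ N : ℕ, N0 ≤ N → ∀ K : ℕ, Real.log N ^ B ≤ K →
    (K : ℝ) * Real.log N ^ B ≤ N → ∀ F : Fin r → ℤ[X], (∀ i, (F i).natDegree ≤ D) →
    (∀ i, ∀ l : ℕ, l.Prime → r * max D 1 < l → ∃ j, 2 ≤ j ∧ ¬ (l : ℤ) ∣ (F i).coeff j) →
    (∀ i, ∀ n : ℕ, 1 ≤ n → n ≤ K → 0 ≤ (F i).eval (n : ℤ) ∧ (F i).eval (n : ℤ) ≤ N) →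
    ∃ Ex : Finset (Fin r → ℤ × ℤ), (Ex.card : ℝ) ≤ ((N : ℝ) ^ 2 / K) ^ r / Real.log N ^ U ∧
      ∀ a b : Fin r → ℤ, (∀ i, 1 ≤ a i ∧ a i * K ≤ N) → (∀ i, 1 ≤ b i ∧ b i ≤ N) →
      (fun i => (a i, b i)) ∉ Ex →
      (∀ p k : ℕ, p.Prime → p < r * max D 1 + 3 → ∃ t : ℤ, ∀ i, ∃ u v : ℤ,
        (p : ℤ) ^ k ∣ (F i).eval t + a i * t + b i - (u ^ 2 + v ^ 2)) →
      (K : ℝ) / Real.log N ^ E ≤
        (((Icc 1 K).filter (fun n : ℕ => ∀ i, ∃ u v : ℤ,
          (F i).eval (n : ℤ) + a i * n + b i = u ^ 2 + v ^ 2)).card : ℝ) :=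
  Pool.Agent.H300R2.HP.hasseR r D U

end Pool.Agent.Results.MP_12adaf_nt.HasseSystems
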